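import Pool.Agent.CRT.Stmts

/-!
# Squad CRT, row SUB: sublevel sets near simple zeros
-/

namespace Pool.Agent.CRT.H62

open Set Filter Topology MeasureTheory

noncomputable section

/-- the derivative -/
def dv (d : Co) (x : ℝ) : ℝ := d.2.1 + 2 * d.2.2 * x

theorem ev_sub (d : Co) (x y : ℝ) : ev d x - ev d y = (x - y) * ((dv d x + dv d y) / 2) := by
  unfold ev dv
  ring

theorem half (d : Co) (s r σ : ℝ) (hr : 0 < r) (hσ : σ = 1 ∨ σ = -1) (A : Set ℝ)
    (h1 : ∀ x ∈ A, |ev d x| ≤ s) (h2 : ∀ x ∈ A, r ≤ σ * dv d x) :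
    volume A ≤ ENNReal.ofReal (2 * s / r) := by
  refine (Real.volume_le_diam A).trans ?_
  refine Metric.ediam_le fun x hx y hy => ?_
  rw [edist_dist, Real.dist_eq]
  apply ENNReal.ofReal_le_ofReal
  rw [le_div_iff₀ hr]
  have h3 : |ev d x - ev d y| ≤ 2 * s := by
    have h4 := h1 x hx
    have h5 := h1 y hy
    rw [abs_le] at h4 h5 ⊢
    constructor <;> linarith
  have h4 : |ev d x - ev d y| = |x - y| * ((σ * dv d x + σ * dv d y) / 2) := by
    rw [ev_sub, abs_mul]
    congr 1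
    have h5 : 0 < (σ * dv d x + σ * dv d y) / 2 := by
      have := h2 x hx
      have := h2 y hy
      linarith
    rcases hσ with rfl | rfl
    · rw [abs_of_pos (by linarith)]
      ring
    · rw [abs_of_neg (by linarith)]
      ring
  have h5 : |x - y| * r ≤ |x - y| * ((σ * dv d x + σ * dv d y) / 2) := by
    apply mul_le_mul_of_nonneg_left _ (abs_nonneg _)
    have := h2 x hx
    have := h2 y hy
    linarith
  linarith

theorem sub : SubStmt := by
  intro d s hs hN hD
  have hDp : 0 < Dc d := lt_of_lt_of_le (by positivity) hD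
  have hd2 : |d.2.2| ≤ Nm d := (le_max_right _ _).trans (le_max_right _ _)
  obtain ⟨r, hr⟩ : ∃ r, r = Real.sqrt (Dc d / 2) := ⟨_, rfl⟩
  have hrp : 0 < r := by rw [hr]; exact Real.sqrt_pos.2 (by positivity)
  have hr2 : r ^ 2 = Dc d / 2 := by rw [hr]; exact Real.sq_sqrt (by positivity)
  have key : ∀ x, |ev d x| ≤ s → r ^ 2 ≤ dv d x ^ 2 := by
    intro x hx
    have h1 : dv d x ^ 2 = Dc d + 4 * d.2.2 * ev d x := by
      unfold dv Dc ev
      ring
    have h2 : |4 * d.2.2 * ev d x| ≤ 4 * Nm d * s := by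
      rw [abs_mul, abs_mul, abs_of_pos (by norm_num : (0 : ℝ) < 4)]
      exact mul_le_mul (mul_le_mul_of_nonneg_left hd2 (by norm_num)) hx (abs_nonneg _)
        (by positivity)
    have h3 := (abs_le.1 h2).1
    rw [h1, hr2]
    linarith
  have hsub : {x | x ∈ Icc (-1 : ℝ) 1 ∧ |ev d x| ≤ s} ⊆
      {x | |ev d x| ≤ s ∧ r ≤ 1 * dv d x} ∪ {x | |ev d x| ≤ s ∧ r ≤ -1 * dv d x} := by
    rintro x ⟨-, hx⟩
    have h1 := key x hx
    have h2 : r ≤ |dv d x| := by
      rw [← abs_of_pos hrp]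
      exact sq_le_sq.1 h1
    rcases le_total 0 (dv d x) with h3 | h3
    · left
      rw [abs_of_nonneg h3] at h2
      exact ⟨hx, by linarith⟩
    · right
      rw [abs_of_nonpos h3] at h2
      exact ⟨hx, by linarith⟩
  have hv1 := half d s r 1 hrp (Or.inl rfl) {x | |ev d x| ≤ s ∧ r ≤ 1 * dv d x}
    (fun x hx => hx.1) (fun x hx => hx.2)
  have hv2 := half d s r (-1) hrp (Or.inr rfl) {x | |ev d x| ≤ s ∧ r ≤ -1 * dv d x}
    (fun x hx => hx.1) (fun x hx => hx.2)
  refine (measure_mono hsub).trans ((measure_union_le _ _).trans ((add_le_add hv1 hv2).trans ?_))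
  rw [← ENNReal.ofReal_add (by positivity) (by positivity)]
  apply ENNReal.ofReal_le_ofReal
  have hq : 0 < Real.sqrt (Dc d) := Real.sqrt_pos.2 hDp
  have hq2 : Real.sqrt (Dc d) ^ 2 = Dc d := Real.sq_sqrt hDp.le
  have h1 : 2 * Real.sqrt (Dc d) ≤ 3 * r := by
    apply le_of_sq_le_sq _ (by positivity)
    rw [mul_pow, mul_pow, hq2, hr2]
    linarith
  have h2 : 2 * s / r + 2 * s / r = 4 * s / r := by ring
  rw [h2, div_le_div_iff₀ hrp hq]
  nlinarith

end

end Pool.Agent.CRT.H62
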